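import Pool.Agent.K3h70.QW.Sepr2
import Pool.Agent.K3h31.WL.SepFin

/-! Separated sets of real points with exceptional windows: the final form (adapted from `K3h31.WL.SepFin`). -/

set_option autoImplicit false

open Finset Filter

namespace Pool.Agent.K3h70.QW

open Pool.Agent.K3h19.RV (Lam richert lam_two lam_three lam_four log3_pos)
open Pool.Agent.K3h31.WL (card_sep log_pow_real)

theorem lam_three_lt : Lam 3 < 1 + 62 / 35 := by
  unfold Lam
  have hL0 : 0 < Real.log 3 := by linarith [log3_pos]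
  have : Real.log ((3 ^ 3 + 1) / 4) / Real.log 3 < 62 / 35 := by
    rw [div_lt_iff₀ hL0]
    have h1 : Real.log (((3 ^ 3 + 1) / 4 : ℝ) ^ 35) < Real.log ((3 : ℝ) ^ 62) :=
      Real.log_lt_log (by norm_num) (by norm_num)
    rw [Real.log_pow, Real.log_pow] at h1
    push_cast at h1
    linarith
  linarith

theorem lam_four_lt : Lam 4 < 3 + 3 / 4 := by
  unfold Lam
  have hL0 : 0 < Real.log 3 := by linarith [log3_pos]
  have : Real.log ((3 ^ 4 + 1) / 4) / Real.log 3 < 11 / 4 := by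
    rw [div_lt_iff₀ hL0]
    have h1 : Real.log (((3 ^ 4 + 1) / 4 : ℝ) ^ 4) < Real.log ((3 : ℝ) ^ 11) :=
      Real.log_lt_log (by norm_num) (by norm_num)
    rw [Real.log_pow, Real.log_pow] at h1
    push_cast at h1
    linarith
  linarith

theorem lam_four' : 3749 / 1000 ≤ Lam 4 := by
  unfold Lam
  have hL0 : 1 < Real.log 3 := log3_pos
  have : (2749 : ℝ) / 1000 ≤ Real.log ((3 ^ 4 + 1) / 4) / Real.log 3 := by
    rw [le_div_iff₀ (by linarith)]
    have h1 : Real.log ((3 : ℝ) ^ 11 / ((3 ^ 4 + 1) / 4) ^ 4) ≤ (3 : ℝ) ^ 11 / ((3 ^ 4 + 1) / 4) ^ 4 - 1 :=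
      Real.log_le_sub_one_of_pos (by norm_num)
    rw [Real.log_div (by norm_num) (by norm_num), Real.log_pow, Real.log_pow] at h1
    have h2 : (3 : ℝ) ^ 11 / ((3 ^ 4 + 1) / 4) ^ 4 - 1 ≤ 4 / 1000 := by norm_num
    push_cast at h1
    linarith
  linarith

theorem lam_five : 1 + 7 / 2 ≤ Lam 5 := by
  unfold Lam
  have hL0 : 0 < Real.log 3 := by linarith [log3_pos]
  have : (7 : ℝ) / 2 ≤ Real.log ((3 ^ 5 + 1) / 4) / Real.log 3 := by
    rw [le_div_iff₀ hL0]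
    have h1 : Real.log ((3 : ℝ) ^ 7) ≤ Real.log (((3 ^ 5 + 1) / 4 : ℝ) ^ 2) :=
      Real.log_le_log (by norm_num) (by norm_num)
    rw [Real.log_pow, Real.log_pow] at h1
    push_cast at h1
    linarith
  linarith

/-- `S` is a set of `H₀`-separated points of `[1, X]` with exceptional intervals -/
def ExcSet (r : ℕ) (c θ δ X H₀ : ℝ) (S : Finset ℝ) : Prop :=
  (∀ x ∈ S, 1 ≤ x ∧ x ≤ X) ∧ (∀ x ∈ S, ∀ y ∈ S, x < y → x + H₀ ≤ y) ∧
  ∀ x ∈ S, ∃ H : ℝ, H₀ ≤ H ∧ H ≤ X ^ θ ∧ ((btw r (X ^ c) x H).ncard : ℝ) < δ * H / Real.log X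

theorem exs_triv (r : ℕ) (c θ δ X H₀ : ℝ) (hθ : θ ≤ 1) (hX : 2 ≤ X) (hH : 1 ≤ H₀) (S : Finset ℝ)
    (h : ExcSet r c θ δ X H₀ S) (K : ℝ) (hK : H₀ ≤ X → H₀ ≤ K) :
    (S.card : ℝ) ≤ 2 * K * (X / H₀ ^ 2) ∨ S = ∅ := by
  rcases S.eq_empty_or_nonempty with h0 | ⟨x, hx⟩
  · exact Or.inr h0
  · left
    obtain ⟨h1, h2, h3⟩ := h
    obtain ⟨H, hH1, hH2, _⟩ := h3 x hx
    have hX1 : X ^ θ ≤ X := by
      calc X ^ θ ≤ X ^ (1 : ℝ) := Real.rpow_le_rpow_of_exponent_le (by linarith) hθ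
        _ = X := Real.rpow_one _
    have hHX : H₀ ≤ X := (hH1.trans hH2).trans hX1
    have h4 := card_sep S H₀ 0 X (by linarith) (by linarith) (fun y hy => ⟨by linarith [(h1 y hy).1],
      by linarith [(h1 y hy).2]⟩) h2
    have h5 : 1 ≤ X / H₀ := by
      rw [le_div_iff₀ (by linarith)]
      linarith
    have hK0 : H₀ ≤ K := hK hHX
    calc (S.card : ℝ) ≤ 2 * (X / H₀) := by linarith
      _ = 2 * H₀ * (X / H₀ ^ 2) := by field_simp
      _ ≤ 2 * K * (X / H₀ ^ 2) := by gcongr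

/-- the form with `4 / Λ`; `σ` is a lower bound for `1 / Λ` -/
theorem gen_sep (r : ℕ) (hr : 1 ≤ r) (c θ σ : ℝ) (hσ : σ ≤ 1 / Lam r) (hσ0 : 1 / 4 < 1 / Lam r) (hσ1 : 1 / Lam r < 1)
    (hc : c ≤ σ / 2) (hθ0 : 0 ≤ θ) (hθ : θ ≤ 1) (h1 : 1 + θ ≤ 9 / 2 * σ) (h2 : θ ≤ 2 * σ) (η : ℝ)
    (hη : 4 / Lam r < η) : ∃ δ C : ℝ, 0 < δ ∧ 0 < C ∧ ∀ X : ℝ, 2 ≤ X →
    ∀ H₀ : ℝ, 1 ≤ H₀ → ∀ S : Finset ℝ, ExcSet r c θ δ X H₀ S → (S.card : ℝ) ≤ C * X ^ η / H₀ ^ 2 := by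
  have hl0 : 0 < Lam r := by
    by_contra hneg
    push Not at hneg
    have : 1 / Lam r ≤ 0 := div_nonpos_of_nonneg_of_nonpos (by norm_num) hneg
    linarith
  have e4 : 4 / Lam r = 4 * (1 / Lam r) := by ring
  rw [e4] at hη
  have hη2 : 1 < η := by linarith
  have hb : 1 / Lam r < η / 4 := by linarith
  obtain ⟨e, he1, he2⟩ : ∃ e : ℝ, 1 / Lam r < e ∧ e < min (η / 4) 1 := exists_between (lt_min hb hσ1)
  obtain ⟨τ, hτ1, hτ2⟩ : ∃ τ : ℝ, 1 / Lam r < τ ∧ τ < e := exists_between he1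
  have he3 : e < η / 4 := he2.trans_le (min_le_left _ _)
  have he4 : e < 1 := he2.trans_le (min_le_right _ _)
  have h0 : 1 < τ * Lam r := by
    rw [div_lt_iff₀ hl0] at hτ1
    exact hτ1
  obtain ⟨δ, C, hδ, hC, X₀, HM⟩ := all_scales r hr τ e θ c (by linarith) (by linarith) h0 hτ2 hθ0 hθ
    (by
      apply le_max_of_le_right
      linarith)
    (by
      apply le_max_of_le_right
      linarith)
    (by linarith)
  obtain ⟨X₁, hX₁⟩ := eventually_atTop.1 ((log_pow_real 12 1 η hη2).and (log_pow_real 12 (4 * e) η (by linarith)))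
  set K : ℝ := max (max X₀ X₁) 4 with hK
  have hK4 : 4 ≤ K := le_max_right _ _
  refine ⟨δ, 2 * C + 2 * K, hδ, by positivity, ?_⟩
  intro X hX H₀ hH₀ S hS
  have hX0 : (0 : ℝ) < X := by linarith
  have hH0 : 0 < H₀ := by linarith
  have hXη : X ≤ X ^ η := by
    calc X = X ^ (1 : ℝ) := (Real.rpow_one X).symm
      _ ≤ _ := Real.rpow_le_rpow_of_exponent_le (by linarith) hη2.le
  have small : (H₀ ≤ X → H₀ ≤ K) → (S.card : ℝ) ≤ (2 * C + 2 * K) * X ^ η / H₀ ^ 2 := by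
    intro hcase
    rcases exs_triv r c θ δ X H₀ hθ hX hH₀ S hS K hcase with h | h
    · refine h.trans ?_
      rw [mul_div_assoc]
      calc 2 * K * (X / H₀ ^ 2) ≤ (2 * C + 2 * K) * (X / H₀ ^ 2) := by
            apply mul_le_mul_of_nonneg_right _ (by positivity)
            linarith
        _ ≤ _ := by gcongr
    · rw [h, card_empty]
      push_cast
      positivity
  by_cases hH4 : H₀ < 4
  · exact small fun _ => by linarith
  by_cases hbig : X < max X₀ X₁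
  · apply small
    intro h
    linarith [le_max_left (max X₀ X₁) 4]
  push Not at hH4 hbig
  obtain ⟨s1, s2, s3⟩ := hS
  have h2 := HM X ((le_max_left _ _).trans hbig) H₀ hH4 S (fun x hx => ⟨by linarith [(s1 x hx).1], (s1 x hx).2⟩) s2 s3
  obtain ⟨h3, h4⟩ := hX₁ X ((le_max_right _ _).trans hbig)
  rw [Real.rpow_one] at h3
  have h5 : (X + X ^ (4 * e)) * Real.log X ^ 12 ≤ 2 * X ^ η := by linarith
  refine h2.trans ?_
  rw [mul_div_assoc']
  apply div_le_div_of_nonneg_right _ (by positivity)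
  have h7 : (0 : ℝ) ≤ X ^ η := by positivity
  nlinarith

/-- **three prime factors** -/
theorem three_sep (η : ℝ) (hη : 4 / Lam 3 < η) : ∃ δ C : ℝ, 0 < δ ∧ 0 < C ∧ ∀ X : ℝ, 2 ≤ X →
    ∀ H₀ : ℝ, 1 ≤ H₀ → ∀ S : Finset ℝ, ExcSet 3 (9 / 50) (3 / 5) δ X H₀ S → (S.card : ℝ) ≤ C * X ^ η / H₀ ^ 2 := by
  have h1 := lam_three
  have h2 := lam_three_lt
  have h0 : 0 < Lam 3 := by linarith
  exact gen_sep 3 (by norm_num) (9 / 50) (3 / 5) (9 / 25) (by rw [le_div_iff₀ h0]; linarith)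
    (by rw [lt_div_iff₀ h0]; linarith) (by rw [div_lt_iff₀ h0]; linarith) (by norm_num) (by norm_num) (by norm_num)
    (by norm_num) (by norm_num) η hη

/-- **four prime factors** -/
theorem four_sep (η : ℝ) (hη : 4 / Lam 4 < η) : ∃ δ C : ℝ, 0 < δ ∧ 0 < C ∧ ∀ X : ℝ, 2 ≤ X →
    ∀ H₀ : ℝ, 1 ≤ H₀ → ∀ S : Finset ℝ, ExcSet 4 (2 / 15) (1 / 5) δ X H₀ S → (S.card : ℝ) ≤ C * X ^ η / H₀ ^ 2 := by
  have h1 := lam_four
  have h2 := lam_four_lt
  have h0 : 0 < Lam 4 := by linarith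
  exact gen_sep 4 (by norm_num) (2 / 15) (1 / 5) (4 / 15) (by rw [le_div_iff₀ h0]; linarith)
    (by rw [lt_div_iff₀ h0]; linarith) (by rw [div_lt_iff₀ h0]; linarith) (by norm_num) (by norm_num) (by norm_num)
    (by norm_num) (by norm_num) η hη

/-- **five prime factors** -/
theorem five_sep : ∃ δ C : ℝ, 0 < δ ∧ 0 < C ∧ ∀ X : ℝ, 2 ≤ X →
    ∀ H₀ : ℝ, 1 ≤ H₀ → ∀ S : Finset ℝ, ExcSet 5 (3 / 25) (3 / 25) δ X H₀ S →
      (S.card : ℝ) ≤ C * X * Real.log X ^ 12 / H₀ ^ 2 := by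
  have hl5 := lam_five
  obtain ⟨δ, C, hδ, hC, X₀, HM⟩ := all_scales 5 (by norm_num) (6 / 25) (1 / 4) (3 / 25) (3 / 25) (by norm_num)
    (by norm_num) (by linarith) (by norm_num) (by norm_num) (by norm_num)
    (by
      apply le_max_of_le_left
      norm_num)
    (by
      apply le_max_of_le_left
      norm_num)
    (by norm_num)
  have hlog2 : 0 < Real.log 2 := Real.log_pos (by norm_num)
  set K : ℝ := max X₀ 4 with hK
  have hK4 : 4 ≤ K := le_max_right _ _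
  have hK0 : 0 < K := by linarith
  refine ⟨δ, 2 * C + 2 * K / Real.log 2 ^ 12, hδ, by positivity, ?_⟩
  intro X hX H₀ hH₀ S hS
  have hX0 : (0 : ℝ) < X := by linarith
  have hH0 : 0 < H₀ := by linarith
  have hlX : Real.log 2 ≤ Real.log X := Real.log_le_log (by norm_num) hX
  have hlX0 : 0 < Real.log X := by linarith
  have hl7 : Real.log 2 ^ 12 ≤ Real.log X ^ 12 := pow_le_pow_left₀ hlog2.le hlX 12
  have small : (H₀ ≤ X → H₀ ≤ K) →
      (S.card : ℝ) ≤ (2 * C + 2 * K / Real.log 2 ^ 12) * X * Real.log X ^ 12 / H₀ ^ 2 := by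
    intro hcase
    rcases exs_triv 5 (3 / 25) (3 / 25) δ X H₀ (by norm_num) hX hH₀ S hS K hcase with h | h
    · refine h.trans ?_
      calc 2 * K * (X / H₀ ^ 2) = 2 * K / Real.log 2 ^ 12 * X * Real.log 2 ^ 12 / H₀ ^ 2 := by field_simp
        _ ≤ (2 * C + 2 * K / Real.log 2 ^ 12) * X * Real.log X ^ 12 / H₀ ^ 2 := by
            gcongr
            linarith
    · rw [h, card_empty]
      push_cast
      positivity
  by_cases hH4 : H₀ < 4
  · exact small fun _ => by linarith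
  by_cases hbig : X < X₀
  · apply small
    intro h
    linarith [le_max_left X₀ 4]
  push Not at hH4 hbig
  obtain ⟨s1, s2, s3⟩ := hS
  have h2 := HM X hbig H₀ hH4 S (fun x hx => ⟨by linarith [(s1 x hx).1], (s1 x hx).2⟩) s2 s3
  have h3 : X ^ (4 * (1 / 4 : ℝ)) = X := by
    rw [show (4 * (1 / 4 : ℝ)) = 1 by norm_num, Real.rpow_one]
  rw [h3] at h2
  refine h2.trans ?_
  rw [mul_div_assoc']
  apply div_le_div_of_nonneg_right _ (by positivity)
  have h4 : 0 ≤ 2 * K / Real.log 2 ^ 12 * (X * Real.log X ^ 12) := by positivity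
  calc C * ((X + X) * Real.log X ^ 12) = 2 * C * (X * Real.log X ^ 12) := by ring
    _ ≤ 2 * C * (X * Real.log X ^ 12) + 2 * K / Real.log 2 ^ 12 * (X * Real.log X ^ 12) := by linarith
    _ = _ := by ring

end Pool.Agent.K3h70.QW
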