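import Pool.Agent.K3h70.QW.Poly
import Pool.Agent.K3h31.WL.Sqf

/-! Values of `k ^ 2 + 3 k + 1` divisible by the square of a medium prime. -/

set_option autoImplicit false

open Finset Filter

namespace Pool.Agent.K3h70.QW

open Pool.Agent.W23.DC
open Pool.Agent.Y882

theorem sq_cnt (q : ℕ) (hq : q.Prime) (hq5 : 6 ≤ q) (M : ℕ) :
    (((Icc 1 M).filter (fun k => q ^ 2 ∣ F k)).card : ℝ) ≤ 2 * (M * (1 / (q : ℝ) ^ 2) + 1) := by
  classical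
  set A := (Icc 1 M).filter (fun k => q ^ 2 ∣ F k) with hA
  have hq2 : 0 < q ^ 2 := pow_pos hq.pos 2
  rcases A.eq_empty_or_nonempty with h0 | ⟨k0, hk0⟩
  · rw [h0, card_empty]
    push_cast
    positivity
  have hqp : Prime (q : ℤ) := Nat.prime_iff_prime_int.1 hq
  have hk0d : ((q ^ 2 : ℕ) : ℤ) ∣ ((F k0 : ℕ) : ℤ) := by
    exact_mod_cast (mem_filter.1 hk0).2
  have hqF : (q : ℤ) ∣ ((F k0 : ℕ) : ℤ) := by
    refine dvd_trans ?_ hk0d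
    push_cast
    exact dvd_pow_self _ (by norm_num)
  have hno : ¬ (q : ℤ) ∣ 2 * (k0 : ℤ) + 3 := by
    intro hd
    have h1 : (q : ℤ) ∣ (2 * (k0 : ℤ) + 3) * (2 * k0 + 3) - 4 * ((F k0 : ℕ) : ℤ) :=
      dvd_sub (hd.mul_right _) (hqF.mul_left _)
    have e : (2 * (k0 : ℤ) + 3) * (2 * k0 + 3) - 4 * ((F k0 : ℕ) : ℤ) = 5 := by
      unfold F
      push_cast
      ring
    rw [e] at h1
    have := Int.le_of_dvd (by norm_num) h1
    omega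
  have key : ∀ k ∈ A, ((q ^ 2 : ℕ) : ℤ) ∣ (k : ℤ) - k0 ∨ ((q ^ 2 : ℕ) : ℤ) ∣ (k : ℤ) + k0 + 3 := by
    intro k hk
    have hkd : ((q ^ 2 : ℕ) : ℤ) ∣ ((F k : ℕ) : ℤ) := by
      exact_mod_cast (mem_filter.1 hk).2
    have h3 := dvd_sub hkd hk0d
    have e : ((F k : ℕ) : ℤ) - ((F k0 : ℕ) : ℤ) = ((k : ℤ) - k0) * (k + k0 + 3) := by
      unfold F
      push_cast
      ring
    rw [e] at h3
    by_cases h4 : (q : ℤ) ∣ (k : ℤ) - k0
    · left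
      have h5 : ¬ (q : ℤ) ∣ (k : ℤ) + k0 + 3 := by
        intro h5
        apply hno
        have h6 := dvd_sub h5 h4
        have e2 : ((k : ℤ) + k0 + 3) - (k - k0) = 2 * (k0 : ℤ) + 3 := by ring
        rwa [e2] at h6
      have h6 : IsCoprime ((q ^ 2 : ℕ) : ℤ) ((k : ℤ) + k0 + 3) := by
        push_cast
        apply IsCoprime.pow_left
        exact (Prime.coprime_iff_not_dvd hqp).2 h5
      exact h6.dvd_of_dvd_mul_right h3
    · right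
      have h6 : IsCoprime ((q ^ 2 : ℕ) : ℤ) ((k : ℤ) - k0) := by
        push_cast
        apply IsCoprime.pow_left
        exact (Prime.coprime_iff_not_dvd hqp).2 h4
      exact h6.dvd_of_dvd_mul_left h3
  obtain ⟨A1, hA1⟩ : ∃ A1 : Finset ℕ, A1 = A.filter (fun k : ℕ => ((q ^ 2 : ℕ) : ℤ) ∣ (k : ℤ) - (k0 : ℤ)) := ⟨_, rfl⟩
  obtain ⟨A2, hA2⟩ : ∃ A2 : Finset ℕ, A2 = A.filter (fun k : ℕ => ((q ^ 2 : ℕ) : ℤ) ∣ (k : ℤ) + (k0 : ℤ) + 3) :=
    ⟨_, rfl⟩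
  have hsub : A ⊆ A1 ∪ A2 := by
    intro k hk
    rcases key k hk with h | h
    · exact mem_union_left _ (by rw [hA1]; exact mem_filter.2 ⟨hk, h⟩)
    · exact mem_union_right _ (by rw [hA2]; exact mem_filter.2 ⟨hk, h⟩)
  have hAI : A ⊆ Icc 1 M := filter_subset _ _
  have c1 := Pool.Agent.K3h31.WL.card_cong (q ^ 2) M hq2 A1
    (by rw [hA1]; exact (filter_subset _ _).trans hAI) (by
      intro x hx y hy
      rw [hA1, mem_filter] at hx hy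
      have h3 := dvd_sub hy.2 hx.2
      rw [Nat.modEq_iff_dvd]
      have e : (y : ℤ) - x = ((y : ℤ) - k0) - ((x : ℤ) - k0) := by ring
      rw [e]
      exact h3)
  have c2 := Pool.Agent.K3h31.WL.card_cong (q ^ 2) M hq2 A2
    (by rw [hA2]; exact (filter_subset _ _).trans hAI) (by
      intro x hx y hy
      rw [hA2, mem_filter] at hx hy
      have h3 := dvd_sub hy.2 hx.2
      rw [Nat.modEq_iff_dvd]
      have e : (y : ℤ) - x = ((y : ℤ) + k0 + 3) - ((x : ℤ) + k0 + 3) := by ring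
      rw [e]
      exact h3)
  have h1 : (A.card : ℝ) ≤ (A1.card : ℝ) + (A2.card : ℝ) := by
    exact_mod_cast (card_le_card hsub).trans (card_union_le _ _)
  push_cast at c1 c2
  have e : (M : ℝ) / (q : ℝ) ^ 2 = M * (1 / (q : ℝ) ^ 2) := by ring
  rw [e] at c1 c2
  linarith

open Classical in
/-- the values divisible by the square of a prime of the range -/
noncomputable def sq (Y : ℕ) (ζ υ : ℝ) (M : ℕ) : Finset ℕ :=
  (Icc 1 M).filter (fun k => ∃ q ∈ pr Y ζ υ, q ^ 2 ∣ F k)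

theorem sq_bd (ζ υ : ℝ) (hζ : 0 < ζ) : ∃ C : ℝ, 0 < C ∧ ∃ Y₀ : ℕ, ∀ Y : ℕ, Y₀ ≤ Y → ∀ M : ℕ,
    ((sq Y ζ υ M).card : ℝ) ≤ C * (M / (Y : ℝ) ^ ζ + (Y : ℝ) ^ υ) := by
  classical
  obtain ⟨KK, q0, hKK2, hq06⟩ : ∃ KK q0 : ℕ, KK = 2 ∧ q0 = 6 := ⟨2, 6, rfl, rfl⟩
  have ev1 : ∀ᶠ Y : ℕ in atTop, (q0 : ℝ) + 2 ≤ (Y : ℝ) ^ ζ :=
    ((tendsto_rpow_atTop hζ).comp tendsto_natCast_atTop_atTop).eventually_ge_atTop _
  obtain ⟨Y1, hY1⟩ := eventually_atTop.1 ev1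
  refine ⟨2 * KK + 1, by positivity, max Y1 2, fun Y hY M => ?_⟩
  have hY2 : 2 ≤ Y := (le_max_right _ _).trans hY
  have h1 := hY1 Y ((le_max_left _ _).trans hY)
  have hYr : (2 : ℝ) ≤ Y := by exact_mod_cast hY2
  have hq0 : (0 : ℝ) ≤ q0 := Nat.cast_nonneg _
  have hfacts : ∀ q ∈ pr Y ζ υ, q.Prime ∧ q0 ≤ q ∧ (q : ℝ) < (Y : ℝ) ^ υ := by
    intro q hq
    obtain ⟨a1, a2, a3, a4⟩ := Pool.Agent.K3h31.LP.pr_facts hY2 hq
    refine ⟨a1, ?_, a4⟩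
    have : (q0 : ℝ) ≤ q := by linarith
    exact_mod_cast this
  have hsub : sq Y ζ υ M ⊆ (pr Y ζ υ).biUnion (fun q => (Icc 1 M).filter (fun k => q ^ 2 ∣ F k)) := by
    intro k hk
    unfold sq at hk
    rw [mem_filter] at hk
    obtain ⟨q, hq, hd⟩ := hk.2
    rw [mem_biUnion]
    exact ⟨q, hq, mem_filter.2 ⟨hk.1, hd⟩⟩
  have h2 := (card_le_card hsub).trans card_biUnion_le
  have h3 : ((sq Y ζ υ M).card : ℝ) ≤ ∑ q ∈ pr Y ζ υ, (((Icc 1 M).filter (fun k => q ^ 2 ∣ F k)).card : ℝ) := by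
    exact_mod_cast h2
  have h4 : ∀ q ∈ pr Y ζ υ, (((Icc 1 M).filter (fun k => q ^ 2 ∣ F k)).card : ℝ) ≤
      KK * (M * (1 / (q : ℝ) ^ 2) + 1) := by
    intro q hq
    obtain ⟨a1, a2, a3⟩ := hfacts q hq
    rw [hKK2]
    push_cast
    exact sq_cnt q a1 (by omega) M
  have h5 := h3.trans (sum_le_sum h4)
  rw [← mul_sum, sum_add_distrib, ← mul_sum, sum_const, nsmul_eq_mul, mul_one] at h5
  have h6 := Pool.Agent.K3h31.LP.pr_sq hY2 ζ υ (by linarith)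
  have h7 : ((pr Y ζ υ).card : ℝ) ≤ (Y : ℝ) ^ υ := by
    have h8 : pr Y ζ υ ⊆ Icc 1 ⌊(Y : ℝ) ^ υ⌋₊ := by
      intro q hq
      obtain ⟨a1, a2, a3⟩ := hfacts q hq
      rw [mem_Icc]
      exact ⟨a1.one_le, Nat.le_floor a3.le⟩
    have h9 := card_le_card h8
    rw [Nat.card_Icc, Nat.add_sub_cancel] at h9
    have h10 : ((pr Y ζ υ).card : ℝ) ≤ (⌊(Y : ℝ) ^ υ⌋₊ : ℝ) := by exact_mod_cast h9
    exact h10.trans (Nat.floor_le (by positivity))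
  have hM : (0 : ℝ) ≤ M := Nat.cast_nonneg _
  have hKK : (0 : ℝ) ≤ KK := Nat.cast_nonneg _
  have hYζ : (0 : ℝ) < (Y : ℝ) ^ ζ := by linarith
  calc ((sq Y ζ υ M).card : ℝ) ≤ KK * (M * ∑ q ∈ pr Y ζ υ, 1 / (q : ℝ) ^ 2 + (pr Y ζ υ).card) := h5
    _ ≤ KK * (M * (2 / (Y : ℝ) ^ ζ) + (Y : ℝ) ^ υ) := by gcongr
    _ = 2 * KK * (M / (Y : ℝ) ^ ζ) + KK * (Y : ℝ) ^ υ := by ring
    _ ≤ (2 * KK + 1) * (M / (Y : ℝ) ^ ζ) + (2 * KK + 1) * (Y : ℝ) ^ υ := by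
        have b1 : 0 ≤ M / (Y : ℝ) ^ ζ := by positivity
        have b2 : (0 : ℝ) ≤ (Y : ℝ) ^ υ := by positivity
        nlinarith
    _ = _ := by ring

open Classical in
/-- the windows with many such values -/
theorem sq_win (S : Finset ℕ) (X H : ℕ) (hHX : H ≤ X) (hS : ∀ k, k ∈ S → k ∈ Icc 1 (2 * X)) (δ : ℝ) (hδ : 0 < δ)
    (hH : 1 ≤ H) :
    (((Icc 1 X).filter (fun x => δ * H < ((((Icc 1 H).filter (fun j => x + j ∈ S)).card : ℕ) : ℝ))).card : ℝ) ≤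
      S.card / δ := by
  set E := (Icc 1 X).filter (fun x => δ * H < ((((Icc 1 H).filter (fun j => x + j ∈ S)).card : ℕ) : ℝ)) with hE
  have hH0 : (0 : ℝ) < H := by exact_mod_cast hH
  have h1 : ∑ x ∈ Icc 1 X, ((Icc 1 H).filter (fun j => x + j ∈ S)).card ≤ H * S.card := by
    simp_rw [card_filter]
    rw [sum_comm]
    have h2 : ∀ j ∈ Icc 1 H, ∑ x ∈ Icc 1 X, (if x + j ∈ S then 1 else 0) ≤ S.card := by
      intro j _
      rw [← card_filter]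
      apply card_le_card_of_injOn (fun x => x + j)
      · intro x hx
        rw [mem_coe, mem_filter] at hx
        exact hx.2
      · intro a _ b _ hab
        simp only at hab
        omega
    calc _ ≤ ∑ _j ∈ Icc 1 H, S.card := sum_le_sum h2
      _ = _ := by rw [sum_const, smul_eq_mul, Nat.card_Icc, Nat.add_sub_cancel]
  have h2 : (E.card : ℝ) * (δ * H) ≤ H * S.card := by
    calc (E.card : ℝ) * (δ * H) = ∑ _x ∈ E, (δ * H) := by rw [sum_const, nsmul_eq_mul]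
      _ ≤ ∑ x ∈ E, ((((Icc 1 H).filter (fun j => x + j ∈ S)).card : ℕ) : ℝ) := sum_le_sum fun x hx => by
          rw [hE, mem_filter] at hx
          exact hx.2.le
      _ ≤ ∑ x ∈ Icc 1 X, ((((Icc 1 H).filter (fun j => x + j ∈ S)).card : ℕ) : ℝ) :=
          sum_le_sum_of_subset_of_nonneg (by rw [hE]; exact filter_subset _ _) fun _ _ _ => Nat.cast_nonneg _
      _ ≤ _ := by exact_mod_cast h1
  rw [le_div_iff₀ hδ]
  have h3 : (E.card : ℝ) * δ * H ≤ S.card * H := by linarith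
  exact le_of_mul_le_mul_right h3 hH0

end Pool.Agent.K3h70.QW
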