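import Pool.Agent.K3h70.QW.Sieve
import Pool.Agent.K3h70.QW.Sq
import Pool.Agent.K3h31.WL.Rem
import Pool.Agent.K3h19.RV.Num

/-! Almost prime values in all but few short windows. -/

set_option autoImplicit false

open Finset Filter

namespace Pool.Agent.K3h70.QW

open Pool.Agent.W23.DC
open Pool.Agent.Y882
open Pool.Agent.Y882.PX
open Pool.Agent.Y882.KW
open Pool.Agent.K3h19.RV (Lam richert)
open Pool.Agent.K3h31.WL (Rem mean_sq)

open Classical in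
/-- the `k` of the window with an almost prime value -/
noncomputable def good (r : ℕ) (w : ℝ) (H x : ℕ) : Finset ℕ :=
  (Icc 1 H).filter (fun j => (F (x + j)).primeFactorsList.length ≤ r ∧
    ∀ q : ℕ, q.Prime → q ∣ F (x + j) → w ≤ q)

theorem prod_dvd_iff (T : Finset ℕ) (hT : ∀ p ∈ T, p.Prime) (n : ℕ) :
    ∏ p ∈ T, p ∣ F n ↔ ∀ q ∈ T, n % q ∈ II q := by
  constructor
  · intro h q hq
    rw [mem_II_mod (hT q hq).pos]
    exact (dvd_prod_of_mem _ hq).trans h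
  · intro h
    apply Finset.prod_primes_dvd (F n) (fun p hp => (hT p hp).prime)
    intro p hp
    have := h p hp
    rwa [mem_II_mod (hT p hp).pos] at this

theorem few_windows (r : ℕ) (hr : 1 ≤ r) (τ τ' θ : ℝ) (hτ0 : 0 < τ) (hτ1 : τ ≤ 1) (h : 1 < τ * Lam r)
    (hττ : τ < τ') (hθ : θ ≤ 1) (hθ1 : 1 - τ / 2 + θ ≤ max 1 (4 * τ')) (hθ2 : 2 * τ + θ ≤ max 1 (4 * τ')) :
    ∃ δ C : ℝ, 0 < δ ∧ 0 < C ∧ ∃ X₀ : ℕ, ∀ X : ℕ, X₀ ≤ X → ∀ H : ℕ, 1 ≤ H → (H : ℝ) ≤ (X : ℝ) ^ θ →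
    (((Icc 1 X).filter (fun x => ((good r ((X : ℝ) ^ (τ / 2)) H x).card : ℝ) <
      δ * H / Real.log X)).card : ℝ) ≤
      C * (((X : ℝ) + (X : ℝ) ^ (4 * τ')) * Real.log X ^ 12 / H) := by
  classical
  obtain ⟨υ, lam, S, hζυ, hυτ, hlam, hS, hrS, hint⟩ := richert r hr τ hτ0 h
  obtain ⟨δ₀, hδ₀, Y0, HL⟩ := lower τ (τ / 4) υ lam τ' (by linarith) (by linarith) (by linarith)
    hτ1 hζυ hυτ hlam hint hττ
  obtain ⟨C₁, hC₁, HM⟩ := mean_sq 2
  obtain ⟨C₂, hC₂, X2, HS⟩ := sq_bd (τ / 4) υ (by linarith)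
  have ev1 : ∀ᶠ X : ℕ in atTop, (11 : ℝ) ≤ (X : ℝ) ^ (2 * (S - 1)) :=
    ((tendsto_rpow_atTop (show 0 < 2 * (S - 1) by linarith)).comp
      tendsto_natCast_atTop_atTop).eventually_ge_atTop _
  obtain ⟨X3, hX3⟩ := eventually_atTop.1 ev1
  refine ⟨δ₀ / 8, C₁ * (16 * 2 ^ 10 / δ₀ ^ 2) + C₂ * 3 * (2 * (8 / δ₀)), by positivity, by positivity,
    max (max Y0 X2) (max X3 3), ?_⟩
  intro X hX H hH hHX
  have hXY0 : Y0 ≤ X := ((le_max_left _ _).trans (le_max_left _ _)).trans hX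
  have hXX20 : X2 ≤ X := ((le_max_right _ _).trans (le_max_left _ _)).trans hX
  have hXX3 : X3 ≤ X := ((le_max_left _ _).trans (le_max_right _ _)).trans hX
  have hX3' : 3 ≤ X := ((le_max_right _ _).trans (le_max_right _ _)).trans hX
  set Y : ℕ := X ^ 2 with hYdef
  have hXleY : X ≤ Y := Nat.le_self_pow (by norm_num) X
  have hXY : Y0 ≤ Y := hXY0.trans hXleY
  have hXX2 : X2 ≤ Y := hXX20.trans hXleY
  have hY3 : 3 ≤ Y := hX3'.trans hXleY
  have hXr : (3 : ℝ) ≤ X := by exact_mod_cast hX3'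
  have hX0 : (0 : ℝ) < X := by linarith
  have hX1 : (1 : ℝ) ≤ X := by linarith
  have hYr : (Y : ℝ) = (X : ℝ) ^ 2 := by rw [hYdef]; push_cast; rfl
  have hYpow : ∀ a : ℝ, (Y : ℝ) ^ a = (X : ℝ) ^ (2 * a) := by
    intro a
    rw [hYr, ← Real.rpow_natCast, ← Real.rpow_mul hX0.le]
    norm_num
  have hHr : (1 : ℝ) ≤ H := by exact_mod_cast hH
  have hH0 : (0 : ℝ) < H := by linarith
  have hHX' : H ≤ X := by
    have h1 : (H : ℝ) ≤ X := by
      refine hHX.trans ?_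
      calc (X : ℝ) ^ θ ≤ (X : ℝ) ^ (1 : ℝ) := Real.rpow_le_rpow_of_exponent_le hX1 hθ
        _ = X := Real.rpow_one _
    exact_mod_cast h1
  have hL1 : 1 ≤ Real.log X := by
    have : Real.exp 1 ≤ X := by linarith [Real.exp_one_lt_d9]
    rw [Real.le_log_iff_exp_le hX0]
    exact this
  have hL0 : 0 < Real.log X := by linarith
  have hlY : Real.log Y = 2 * Real.log X := by
    rw [hYr, Real.log_pow]
    push_cast
    ring
  obtain ⟨c, hcL, hcD, hcV⟩ := HL Y hXY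
  have hPZ : ∀ p ∈ PZ Y υ, p.Prime ∧ p ≤ Y := by
    intro p hp
    unfold PZ at hp
    rw [mem_filter, mem_Icc] at hp
    exact ⟨hp.2.1, hp.1.2⟩
  set D : ℕ := ⌊(Y : ℝ) ^ τ'⌋₊ with hD
  have hDr : (D : ℝ) ≤ (Y : ℝ) ^ τ' := Nat.floor_le (by positivity)
  have hmean := HM Y hY3 υ c II D (fun q _ => II_sub q) (fun q hq => II_le hq) (fun T hT hT0 => Nat.le_floor (by
      have := hcD T hT hT0
      exact_mod_cast this)) hcL X H
  have hmean2 : ∑ x ∈ Icc 1 X, Rem (PZ Y υ) c II H x ^ 2 ≤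
      C₁ * (((X : ℝ) + (X : ℝ) ^ (4 * τ')) * H * (2 * Real.log X) ^ 10) := by
    refine hmean.trans ?_
    have h1 : (D : ℝ) ^ 2 ≤ (X : ℝ) ^ (4 * τ') := by
      calc (D : ℝ) ^ 2 ≤ ((Y : ℝ) ^ τ') ^ 2 := pow_le_pow_left₀ (Nat.cast_nonneg _) hDr 2
        _ = (X : ℝ) ^ (4 * τ') := by
          rw [hYpow, ← Real.rpow_natCast, ← Real.rpow_mul hX0.le]
          congr 1
          push_cast
          ring
    rw [hlY]
    norm_num
    gcongr
  have hXw : (Y : ℝ) ^ (τ / 4) = (X : ℝ) ^ (τ / 2) := by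
    rw [hYpow]
    congr 1
    ring
  -- the sieve inequality
  have hsieve : ∀ x ∈ Icc 1 X, δ₀ * H / Real.log Y + Rem (PZ Y υ) c II H x ≤
      ((good r ((X : ℝ) ^ (τ / 2)) H x).card : ℝ) +
        ((((Icc 1 H).filter (fun j => x + j ∈ sq Y (τ / 4) υ (2 * X))).card : ℕ) : ℝ) := by
    intro x hx
    rw [mem_Icc] at hx
    have h1 := hcV (Icc 1 H) (fun j => F (x + j))
    have h2 : ∑ T ∈ (PZ Y υ).powerset, c T *
          ((((Icc 1 H).filter (fun j => ∏ p ∈ T, p ∣ F (x + j))).card : ℝ) -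
            (Icc 1 H).card * ∏ p ∈ T, (((II p).card : ℝ) / p)) =
        Rem (PZ Y υ) c II H x := by
      unfold Rem
      refine sum_congr rfl fun T hT => ?_
      rw [mem_powerset] at hT
      congr 2
      · congr 2
        apply filter_congr
        intro j _
        exact prod_dvd_iff T (fun p hp => (hPZ p (hT hp)).1) (x + j)
      · simp
    rw [h2, Nat.card_Icc, Nat.add_sub_cancel] at h1
    refine h1.trans ?_
    have h3 : (Icc 1 H).filter (fun j => 0 < WW Y (τ / 4) υ lam (lam / υ) (F (x + j))) ⊆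
        good r ((X : ℝ) ^ (τ / 2)) H x ∪ (Icc 1 H).filter (fun j => x + j ∈ sq Y (τ / 4) υ (2 * X)) := by
      intro j hj
      rw [mem_filter] at hj
      have hj1 := mem_Icc.1 hj.1
      rw [mem_union]
      by_cases hs : ∃ q ∈ pr Y (τ / 4) υ, q ^ 2 ∣ F (x + j)
      · right
        rw [mem_filter]
        refine ⟨hj.1, ?_⟩
        unfold sq
        rw [mem_filter, mem_Icc]
        exact ⟨⟨by omega, by omega⟩, hs⟩
      · left
        push Not at hs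
        unfold good
        rw [mem_filter]
        refine ⟨hj.1, ?_⟩
        rw [← hXw]
        apply almost Y (by omega) (τ / 4) υ lam S r hζυ (by linarith) (by linarith) hlam hrS (F (x + j))
          (by unfold F; omega) _ hj.2 hs
        have h4 : x + j ≤ 2 * X := by omega
        have h5 := hX3 X hXX3
        have h6 : ((F (x + j) : ℕ) : ℝ) ≤ 11 * (X : ℝ) ^ 2 := by
          unfold F
          have h7 : (((x + j : ℕ)) : ℝ) ≤ 2 * X := by exact_mod_cast h4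
          have h8 : (0 : ℝ) ≤ ((x + j : ℕ) : ℝ) := Nat.cast_nonneg _
          push_cast at h7 h8 ⊢
          nlinarith
        refine h6.trans ?_
        rw [hYpow]
        calc 11 * (X : ℝ) ^ 2 ≤ (X : ℝ) ^ (2 * (S - 1)) * (X : ℝ) ^ 2 := by gcongr
          _ = (X : ℝ) ^ (2 * S) := by
            rw [← Real.rpow_natCast, ← Real.rpow_add hX0]
            congr 1
            push_cast
            ring
    have h4 := (card_le_card h3).trans (card_union_le _ _)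
    exact_mod_cast h4
  -- the exceptional set
  set E := (Icc 1 X).filter (fun x => ((good r ((X : ℝ) ^ (τ / 2)) H x).card : ℝ) <
      δ₀ / 8 * H / Real.log X) with hE
  set E1 := (Icc 1 X).filter (fun x => δ₀ / 8 / Real.log X * H <
      ((((Icc 1 H).filter (fun j => x + j ∈ sq Y (τ / 4) υ (2 * X))).card : ℕ) : ℝ)) with hE1
  set E2 := (Icc 1 X).filter (fun x => (δ₀ * H / (4 * Real.log X)) ^ 2 ≤ Rem (PZ Y υ) c II H x ^ 2)
    with hE2
  have hsub : E ⊆ E1 ∪ E2 := by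
    intro x hx
    rw [hE, mem_filter] at hx
    rw [mem_union]
    by_cases h1 : δ₀ / 8 / Real.log X * H <
      ((((Icc 1 H).filter (fun j => x + j ∈ sq Y (τ / 4) υ (2 * X))).card : ℕ) : ℝ)
    · left
      rw [hE1, mem_filter]
      exact ⟨hx.1, h1⟩
    · right
      rw [hE2, mem_filter]
      refine ⟨hx.1, ?_⟩
      have h2 := hsieve x hx.1
      rw [hlY] at h2
      have e1 : δ₀ * H / (2 * Real.log X) = δ₀ / 8 * H / Real.log X + δ₀ / 8 / Real.log X * H +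
        δ₀ * H / (4 * Real.log X) := by
        field_simp
        ring
      have h3 : Rem (PZ Y υ) c II H x ≤ - (δ₀ * H / (4 * Real.log X)) := by
        linarith [hx.2, not_lt.1 h1]
      have h4 : 0 ≤ δ₀ * H / (4 * Real.log X) := by positivity
      nlinarith
  have hb0 := HS Y hXX2 (2 * X)
  have hb1 := sq_win (sq Y (τ / 4) υ (2 * X)) X H hHX' (fun k hk => (mem_filter.1 hk).1) (δ₀ / 8 / Real.log X)
    (by positivity) hH
  have hpos : 0 < (δ₀ * H / (4 * Real.log X)) ^ 2 := by positivity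
  have hb2 : (E2.card : ℝ) * (δ₀ * H / (4 * Real.log X)) ^ 2 ≤
      C₁ * (((X : ℝ) + (X : ℝ) ^ (4 * τ')) * H * (2 * Real.log X) ^ 10) := by
    calc (E2.card : ℝ) * (δ₀ * H / (4 * Real.log X)) ^ 2 = ∑ _x ∈ E2, (δ₀ * H / (4 * Real.log X)) ^ 2 := by
          rw [sum_const, nsmul_eq_mul]
      _ ≤ ∑ x ∈ E2, Rem (PZ Y υ) c II H x ^ 2 := sum_le_sum fun x hx => by
          rw [hE2, mem_filter] at hx
          exact hx.2
      _ ≤ ∑ x ∈ Icc 1 X, Rem (PZ Y υ) c II H x ^ 2 :=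
          sum_le_sum_of_subset_of_nonneg (by rw [hE2]; exact filter_subset _ _) fun _ _ _ => sq_nonneg _
      _ ≤ _ := hmean2
  rw [← le_div_iff₀ hpos] at hb2
  have hb3 : C₁ * (((X : ℝ) + (X : ℝ) ^ (4 * τ')) * H * (2 * Real.log X) ^ 10) / (δ₀ * H / (4 * Real.log X)) ^ 2 =
      C₁ * (16 * 2 ^ 10 / δ₀ ^ 2) * (((X : ℝ) + (X : ℝ) ^ (4 * τ')) * Real.log X ^ 12 / H) := by
    field_simp
    norm_num
  have hmax : ∀ e : ℝ, e ≤ max 1 (4 * τ') → (X : ℝ) ^ e ≤ (X : ℝ) + (X : ℝ) ^ (4 * τ') := by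
    intro e he
    have p1 : (0 : ℝ) ≤ (X : ℝ) ^ (4 * τ') := by positivity
    rcases le_max_iff.1 he with h1 | h1
    · calc (X : ℝ) ^ e ≤ (X : ℝ) ^ (1 : ℝ) := Real.rpow_le_rpow_of_exponent_le hX1 h1
        _ = X := Real.rpow_one _
        _ ≤ _ := by linarith
    · calc (X : ℝ) ^ e ≤ (X : ℝ) ^ (4 * τ') := Real.rpow_le_rpow_of_exponent_le hX1 h1
        _ ≤ _ := by linarith
  have hb4 : (E1.card : ℝ) ≤ C₂ * 3 * (2 * (8 / δ₀)) * (((X : ℝ) + (X : ℝ) ^ (4 * τ')) * Real.log X ^ 12 / H) := by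
    refine hb1.trans ?_
    have q1 : ((sq Y (τ / 4) υ (2 * X)).card : ℝ) * H ≤ C₂ * 3 * (2 * ((X : ℝ) + (X : ℝ) ^ (4 * τ'))) := by
      have r1 : ((2 * X : ℕ) : ℝ) / (Y : ℝ) ^ (τ / 4) = 2 * (X : ℝ) ^ (1 - τ / 2) := by
        rw [hXw, Real.rpow_sub hX0, Real.rpow_one]
        push_cast
        ring
      have r2 : (X : ℝ) ^ (1 - τ / 2) * H ≤ (X : ℝ) + (X : ℝ) ^ (4 * τ') := by
        calc (X : ℝ) ^ (1 - τ / 2) * H ≤ (X : ℝ) ^ (1 - τ / 2) * (X : ℝ) ^ θ := by gcongr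
          _ = (X : ℝ) ^ (1 - τ / 2 + θ) := (Real.rpow_add hX0 _ _).symm
          _ ≤ _ := hmax _ hθ1
      have r3 : (Y : ℝ) ^ υ * H ≤ (X : ℝ) + (X : ℝ) ^ (4 * τ') := by
        rw [hYpow]
        calc (X : ℝ) ^ (2 * υ) * H ≤ (X : ℝ) ^ (2 * υ) * (X : ℝ) ^ θ := by gcongr
          _ = (X : ℝ) ^ (2 * υ + θ) := (Real.rpow_add hX0 _ _).symm
          _ ≤ _ := hmax _ (by linarith)
      rw [r1] at hb0
      calc ((sq Y (τ / 4) υ (2 * X)).card : ℝ) * H ≤ C₂ * (2 * (X : ℝ) ^ (1 - τ / 2) + (Y : ℝ) ^ υ) * H := by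
            gcongr
        _ = C₂ * (2 * ((X : ℝ) ^ (1 - τ / 2) * H) + (Y : ℝ) ^ υ * H) := by ring
        _ ≤ C₂ * (2 * ((X : ℝ) + (X : ℝ) ^ (4 * τ')) + ((X : ℝ) + (X : ℝ) ^ (4 * τ'))) := by gcongr
        _ ≤ _ := by
            have : 0 < C₂ * ((X : ℝ) + (X : ℝ) ^ (4 * τ')) := by positivity
            nlinarith
    have q2 : ((sq Y (τ / 4) υ (2 * X)).card : ℝ) / (δ₀ / 8 / Real.log X) =
        (8 / δ₀) * (((sq Y (τ / 4) υ (2 * X)).card : ℝ) * H) * Real.log X / H := by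
      field_simp
    rw [q2]
    have q3 : Real.log X ≤ Real.log X ^ 12 := le_self_pow₀ hL1 (by norm_num)
    calc (8 / δ₀) * (((sq Y (τ / 4) υ (2 * X)).card : ℝ) * H) * Real.log X / H
        ≤ (8 / δ₀) * (C₂ * 3 * (2 * ((X : ℝ) + (X : ℝ) ^ (4 * τ')))) * Real.log X ^ 12 / H := by gcongr
      _ = _ := by ring
  have hc : (E.card : ℝ) ≤ (E1.card : ℝ) + E2.card := by
    have := (card_le_card hsub).trans (card_union_le _ _)
    exact_mod_cast this
  rw [hb3] at hb2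
  rw [add_mul]
  linarith

end Pool.Agent.K3h70.QW
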