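import Pool.Agent.K3h31.LP.Sieve
import Pool.Agent.K3h21.IR.Mer
import Pool.Agent.H474R2.GE.FA

/-! The polynomial `k ^ 2 + 3 k + 1`: roots modulo primes. -/

set_option autoImplicit false

namespace Pool.Agent.K3h70.QW

open Finset Polynomial
open Pool.Agent.H474R2.PG (rho)

/-- the polynomial `X ^ 2 + 3 X + 1` -/
noncomputable def pol : ℤ[X] := X ^ 2 + C 3 * X + C 1

/-- the number `k ^ 2 + 3 k + 1` -/
def F (k : ℕ) : ℕ := k ^ 2 + 3 * k + 1

theorem pol_ev (k : ℕ) : pol.eval (k : ℤ) = (F k : ℤ) := by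
  unfold pol F
  simp only [eval_add, eval_pow, eval_mul, eval_X, eval_C]
  push_cast
  ring

theorem pol_evz (n : ℤ) : pol.eval n = n ^ 2 + 3 * n + 1 := by
  unfold pol
  simp only [eval_add, eval_pow, eval_mul, eval_X, eval_C]

theorem pol_deg : pol.natDegree = 2 := by
  have := natDegree_quadratic (R := ℤ) (a := 1) (b := 3) (c := 1) one_ne_zero
  rwa [C_1, one_mul] at this

theorem pol_mon : pol.Monic := by
  have := leadingCoeff_quadratic (R := ℤ) (a := 1) (b := 3) (c := 1) one_ne_zero
  rw [C_1, one_mul] at this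
  exact this

theorem pol_irr : Irreducible pol := by
  rw [Monic.irreducible_iff_roots_eq_zero_of_degree_le_three pol_mon (by rw [pol_deg]) (by rw [pol_deg]; norm_num)]
  rw [Multiset.eq_zero_iff_forall_notMem]
  intro x hx
  rw [mem_roots pol_mon.ne_zero, IsRoot.def, pol_evz] at hx
  have h1 : x * (x + 3) = -1 := by linarith
  rcases Int.mul_eq_neg_one_iff_eq_one_or_neg_one.1 h1 with ⟨h2, h3⟩ | ⟨h2, h3⟩ <;> omega

/-- the roots modulo `q` -/
def II (q : ℕ) : Finset ℕ := (range q).filter (fun a => q ∣ F a)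

theorem rho_II (q : ℕ) : rho pol q = (II q).card := by
  unfold rho II
  congr 1
  apply filter_congr
  intro a _
  rw [pol_ev]
  exact Int.natCast_dvd_natCast

theorem F_mod (q n : ℕ) : F (n % q) ≡ F n [MOD q] := by
  unfold F
  have h : n % q ≡ n [MOD q] := Nat.mod_modEq n q
  exact ((h.pow 2).add (h.mul_left 3)).add_right 1

theorem mem_II_mod {q : ℕ} (hq : 0 < q) (n : ℕ) : n % q ∈ II q ↔ q ∣ F n := by
  unfold II
  rw [mem_filter, mem_range]
  constructor
  · rintro ⟨_, h⟩
    exact (F_mod q n).dvd_iff dvd_rfl |>.1 h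
  · intro h
    exact ⟨Nat.mod_lt _ hq, (F_mod q n).dvd_iff dvd_rfl |>.2 h⟩

theorem II_sub (q : ℕ) : II q ⊆ range q := filter_subset _ _

theorem II_two : II 2 = ∅ := by decide

theorem II_le {p : ℕ} (hp : p.Prime) : (II p).card ≤ 2 := by
  by_contra h
  push Not at h
  obtain ⟨a, b, c, ha, hb, hc, hab, hac, hbc⟩ := two_lt_card_iff.1 h
  have key : ∀ x y : ℕ, x ∈ II p → y ∈ II p → x ≠ y → (p : ℤ) ∣ x + y + 3 := by
    intro x y hx hy hxy
    unfold II at hx hy
    rw [mem_filter, mem_range] at hx hy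
    have h1 : (p : ℤ) ∣ ((F x : ℕ) : ℤ) := by exact_mod_cast hx.2
    have h2 : (p : ℤ) ∣ ((F y : ℕ) : ℤ) := by exact_mod_cast hy.2
    have h3 := dvd_sub h1 h2
    have e : ((F x : ℕ) : ℤ) - ((F y : ℕ) : ℤ) = ((x : ℤ) - y) * (x + y + 3) := by
      unfold F
      push_cast
      ring
    rw [e] at h3
    rcases (Nat.prime_iff_prime_int.1 hp).dvd_or_dvd h3 with h4 | h4
    · exfalso
      have h5 : ((x : ℤ) - y) = 0 := by
        apply Int.eq_zero_of_abs_lt_dvd h4
        rw [abs_lt]
        have := hx.1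
        have := hy.1
        constructor <;> omega
      omega
    · exact h4
  have h1 := key a b ha hb hab
  have h2 := key a c ha hc hac
  have h3 := dvd_sub h1 h2
  have e : ((a : ℤ) + b + 3) - (a + c + 3) = (b : ℤ) - c := by ring
  rw [e] at h3
  have hb' := (mem_range.1 (II_sub p hb))
  have hc' := (mem_range.1 (II_sub p hc))
  have h5 : ((b : ℤ) - c) = 0 := by
    apply Int.eq_zero_of_abs_lt_dvd h3
    rw [abs_lt]
    constructor <;> omega
  omega

/-- the local factor has the exact order -/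
theorem prod_low : ∃ c : ℝ, 0 < c ∧ ∀ Z : ℕ, 3 ≤ Z →
    c / Real.log Z ≤ ∏ p ∈ (Icc 1 Z).filter Nat.Prime, (1 - ((II p).card : ℝ) / p) := by
  obtain ⟨C, hC0, hC⟩ := Pool.Agent.H474R2.GE.mertens_rho pol pol_irr (by rw [pol_deg]; norm_num)
  refine ⟨Real.exp (-(C + 24)), Real.exp_pos _, fun Z hZ => ?_⟩
  have hZr : (3 : ℝ) ≤ Z := by exact_mod_cast hZ
  have h1 := (abs_le.1 (hC Z hZr)).2
  have hlZ : 1 < Real.log Z := by
    rw [Real.lt_log_iff_exp_lt (by linarith)]
    linarith [Real.exp_one_lt_d9]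
  have hPR : Pool.Agent.H474R2.PG.PR (Z : ℝ) = (Icc 1 Z).filter Nat.Prime := by
    unfold Pool.Agent.H474R2.PG.PR
    rw [Nat.floor_natCast]
  have h2 : ∀ p ∈ (Icc 1 Z).filter Nat.Prime,
      Real.exp (-(((II p).card : ℝ) / p) - 12 * (1 / (p : ℝ) ^ 2)) ≤ 1 - ((II p).card : ℝ) / p := by
    intro p hp
    have hpp := (mem_filter.1 hp).2
    have hp0 : (0 : ℝ) < p := by exact_mod_cast hpp.pos
    have hr2 : ((II p).card : ℝ) ≤ 2 := by exact_mod_cast II_le hpp
    have hx0 : 0 ≤ ((II p).card : ℝ) / p := by positivity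
    have hx : ((II p).card : ℝ) / p ≤ 2 / 3 := by
      rw [div_le_iff₀ hp0]
      by_cases h2 : p = 2
      · subst h2
        rw [II_two]
        norm_num
      · have : 3 ≤ p := by
          have := hpp.two_le
          omega
        have : (3 : ℝ) ≤ p := by exact_mod_cast this
        linarith
    set x := ((II p).card : ℝ) / p with hxdef
    have hx2 : x ^ 2 ≤ 4 * (1 / (p : ℝ) ^ 2) := by
      rw [hxdef, div_pow]
      rw [mul_one_div]
      apply div_le_div_of_nonneg_right _ (by positivity)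
      nlinarith [(Nat.cast_nonneg ((II p).card) : (0 : ℝ) ≤ _)]
    have h1x : 0 < 1 - x := by linarith
    rw [← Real.le_log_iff_exp_le h1x]
    have h3 := Real.one_sub_inv_le_log_of_pos h1x
    refine le_trans ?_ h3
    have h4 : 1 - (1 - x)⁻¹ = - (x / (1 - x)) := by
      field_simp
      ring
    rw [h4]
    have h5 : x / (1 - x) ≤ x + 3 * x ^ 2 := by
      rw [div_le_iff₀ h1x]
      nlinarith [mul_nonneg (mul_nonneg hx0 hx0) (show 0 ≤ 2 - 3 * x by linarith)]
    linarith
  calc Real.exp (-(C + 24)) / Real.log Z = Real.exp (-(Real.log (Real.log Z)) - C - 24) := by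
        rw [show -(Real.log (Real.log Z)) - C - 24 = -(C + 24) - Real.log (Real.log Z) by ring,
          Real.exp_sub, Real.exp_log (by linarith)]
    _ ≤ Real.exp (∑ p ∈ (Icc 1 Z).filter Nat.Prime,
        (-(((II p).card : ℝ) / p) - 12 * (1 / (p : ℝ) ^ 2))) := by
        apply Real.exp_le_exp.2
        rw [sum_sub_distrib, sum_neg_distrib, ← mul_sum]
        have h3 : ∑ p ∈ (Icc 1 Z).filter Nat.Prime, (1 / (p : ℝ) ^ 2) ≤ 2 := by
          calc ∑ p ∈ (Icc 1 Z).filter Nat.Prime, (1 / (p : ℝ) ^ 2) ≤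
              ∑ p ∈ Icc 1 Z, (1 / (p : ℝ) ^ 2) :=
                sum_le_sum_of_subset_of_nonneg (filter_subset _ _) (fun _ _ _ => by positivity)
            _ ≤ 2 := by
                have h4 : ∀ n : ℕ, 1 ≤ n → ∑ p ∈ Icc 1 n, (1 / (p : ℝ) ^ 2) ≤ 2 - 1 / (n : ℝ) := by
                  intro n hn
                  induction n, hn using Nat.le_induction with
                  | base => norm_num
                  | succ n hn ih =>
                    rw [sum_Icc_succ_top (by omega)]
                    have hn0 : (0 : ℝ) < n := by exact_mod_cast hn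
                    have h5 : 1 / (((n + 1 : ℕ) : ℝ)) ^ 2 ≤ 1 / (n : ℝ) - 1 / ((n + 1 : ℕ) : ℝ) := by
                      push_cast
                      rw [div_sub_div _ _ hn0.ne' (by positivity),
                        div_le_div_iff₀ (by positivity) (by positivity)]
                      nlinarith
                    linarith
                have h5 := h4 Z (by omega)
                have : (0 : ℝ) < 1 / Z := by positivity
                linarith
        have h4 : ∑ p ∈ (Icc 1 Z).filter Nat.Prime, ((II p).card : ℝ) / p ≤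
            Real.log (Real.log Z) + C := by
          unfold Pool.Agent.H474R2.PG.Sg at h1
          rw [hPR] at h1
          simp_rw [rho_II] at h1
          linarith
        linarith
    _ = ∏ p ∈ (Icc 1 Z).filter Nat.Prime,
        Real.exp (-(((II p).card : ℝ) / p) - 12 * (1 / (p : ℝ) ^ 2)) := Real.exp_sum _ _
    _ ≤ _ := prod_le_prod (fun _ _ => (Real.exp_pos _).le) h2

end Pool.Agent.K3h70.QW
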