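import Pool.Agent.K3h70.QW.Poly

/-! The weighted linear sieve for the densities of the roots of `k ^ 2 + 3 k + 1`. -/

set_option autoImplicit false

open Finset Filter

namespace Pool.Agent.K3h70.QW

open Pool.Agent.W23.DC
open Pool.Agent.Y882
open Pool.Agent.Y882.PX
open Pool.Agent.Y882.KW

open Classical in
/-- **The weighted sieve**, with the remainder as it is. -/
theorem lower (τ ζ υ lam τ' : ℝ) (hζ : 0 < ζ) (h2 : 2 * ζ < τ) (h4 : τ ≤ 4 * ζ)
    (hτ : τ ≤ 1) (hζυ : ζ ≤ υ) (hυτ : υ < τ) (hlam : 0 < lam)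
    (hJ0 : ∫ x in ζ..υ, (lam - lam / υ * x) / (τ - x) / x < Real.log (τ / ζ - 1) / τ)
    (h5 : τ < τ') :
    ∃ δ : ℝ, 0 < δ ∧ ∃ Y0 : ℕ, ∀ Y : ℕ, Y0 ≤ Y →
      ∃ c : Finset ℕ → ℝ, (∀ T, |c T| ≤ 5 * Real.log Y) ∧
      (∀ T ⊆ PZ Y υ, c T ≠ 0 → ((∏ p ∈ T, p : ℕ) : ℝ) ≤ (Y : ℝ) ^ τ') ∧
      ∀ (J : Finset ℕ) (a : ℕ → ℕ),
        δ * J.card / Real.log Y + ∑ T ∈ (PZ Y υ).powerset, c T *
          (((J.filter (fun j => ∏ p ∈ T, p ∣ a j)).card : ℝ) - J.card * ∏ p ∈ T, (((II p).card : ℝ) / p)) ≤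
          ((J.filter (fun j => 0 < WW Y ζ υ lam (lam / υ) (a j))).card : ℝ) := by
  have hυ0 : 0 < υ := by linarith
  obtain ⟨ε₁, η, f, hε₁, hε₁ζ, hε₁β, hη, hf, Y1, HC⟩ :=
    core3 2 τ ζ υ lam (lam / υ) τ' 1 hζ h2 h4 hτ hζυ hυτ hlam.le (by positivity)
      (by rw [div_mul_cancel₀ _ hυ0.ne']) hJ0 h5 one_pos
  obtain ⟨Y2, HM⟩ := Pool.Agent.K3h21.IR.mer_irr pol pol_irr (by rw [pol_deg]; norm_num) ε₁ υ η hε₁
    (by linarith) hη
  obtain ⟨c0, hc0, HP⟩ := prod_low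
  refine ⟨f * c0, by positivity, max (max Y1 Y2) 3, fun Y hY => ?_⟩
  have hY1 : Y1 ≤ Y := ((le_max_left _ _).trans (le_max_left _ _)).trans hY
  have hY2 : Y2 ≤ Y := ((le_max_right _ _).trans (le_max_left _ _)).trans hY
  have hY3 : 3 ≤ Y := (le_max_right _ _).trans hY
  obtain ⟨c, hcL, hcD, hcN, hcV⟩ := HC Y hY1
  refine ⟨c, hcL, hcD, ?_⟩
  intro J a
  set h : ℕ → ℝ := fun p => ((II p).card : ℝ) / p with hh
  have hPZ : ∀ w : ℝ, ∀ p ∈ PZ Y w, p.Prime ∧ p ≤ Y := by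
    intro w p hp
    unfold PZ at hp
    rw [mem_filter, mem_Icc] at hp
    exact ⟨hp.2.1, hp.1.2⟩
  have hJr : (0 : ℝ) ≤ J.card := Nat.cast_nonneg _
  have hlY : 0 < Real.log Y := by
    apply Real.log_pos
    have : (3 : ℝ) ≤ Y := by exact_mod_cast hY3
    linarith
  have hh0 : ∀ p : ℕ, 0 ≤ h p := fun p => by rw [hh]; positivity
  have hh1 : ∀ p : ℕ, p.Prime → h p ≤ 1 := by
    intro p hp
    rw [hh]
    have hp0 : (0 : ℝ) < p := by exact_mod_cast hp.pos
    simp only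
    rw [div_le_one hp0]
    have := card_le_card (II_sub p)
    rw [card_range] at this
    exact_mod_cast this
  have hmer : Mer (pr Y ε₁ υ) (tt Y) h ε₁ υ η := by
    have h6 := HM Y hY2
    simp_rw [rho_II] at h6
    exact h6
  have hmain := hcV h (fun p _ => hh0 p) (fun p hp => hh1 p (hPZ ε₁ p hp).1) (by
    intro p hp hp2
    have hp3 : (2 : ℝ) < p := by exact_mod_cast hp2
    rw [hh]
    simp only
    have h6 : ((II p).card : ℝ) ≤ 2 := by exact_mod_cast II_le (hPZ ε₁ p hp).1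
    push_cast
    apply div_le_div₀ (by norm_num) h6 (by linarith) (by linarith)) hmer
  have hlow : c0 / Real.log Y ≤ ∏ p ∈ PZ Y ε₁, (1 - h p) := by
    refine (HP Y hY3).trans ?_
    have hsub : PZ Y ε₁ ⊆ (Icc 1 Y).filter Nat.Prime := by
      intro p hp
      rw [mem_filter, mem_Icc]
      exact ⟨⟨(hPZ ε₁ p hp).1.one_le, (hPZ ε₁ p hp).2⟩, (hPZ ε₁ p hp).1⟩
    rw [← prod_sdiff hsub]
    have h6 : ∏ p ∈ (Icc 1 Y).filter Nat.Prime \ PZ Y ε₁, (1 - ((II p).card : ℝ) / p) ≤ 1 := by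
      apply prod_le_one
      · intro p hp
        have := hh1 p (mem_filter.1 (mem_sdiff.1 hp).1).2
        rw [hh] at this
        simp only at this
        linarith
      · intro p _
        have := hh0 p
        rw [hh] at this
        simp only at this
        linarith
    have h7 : 0 ≤ ∏ p ∈ PZ Y ε₁, (1 - ((II p).card : ℝ) / p) := by
      apply prod_nonneg
      intro p hp
      have := hh1 p (hPZ ε₁ p hp).1
      rw [hh] at this
      simp only at this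
      linarith
    calc _ ≤ 1 * ∏ p ∈ PZ Y ε₁, (1 - ((II p).card : ℝ) / p) := mul_le_mul_of_nonneg_right h6 h7
      _ = _ := by rw [one_mul]
  have hmain' : f * (c0 / Real.log Y) ≤ VV (PZ Y υ) c h :=
    (mul_le_mul_of_nonneg_left hlow hf.le).trans hmain
  -- the sieve inequality
  have hs : (J.card : ℝ) * VV (PZ Y υ) c h +
      ∑ T ∈ (PZ Y υ).powerset, c T * (((J.filter (fun j => ∏ p ∈ T, p ∣ a j)).card : ℝ) -
          J.card * ∏ p ∈ T, h p) ≤
      ((J.filter (fun j => 0 < WW Y ζ υ lam (lam / υ) (a j))).card : ℝ) := by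
    have h6 : (J.card : ℝ) * VV (PZ Y υ) c h +
      ∑ T ∈ (PZ Y υ).powerset, c T * (((J.filter (fun j => ∏ p ∈ T, p ∣ a j)).card : ℝ) -
          J.card * ∏ p ∈ T, h p) =
      ∑ T ∈ (PZ Y υ).powerset, c T * ((J.filter (fun j => ∏ p ∈ T, p ∣ a j)).card : ℝ) := by
      unfold VV
      rw [mul_sum, ← sum_add_distrib]
      apply sum_congr rfl
      intro T _
      ring
    have h7 : ∑ T ∈ (PZ Y υ).powerset, c T * ((J.filter (fun j => ∏ p ∈ T, p ∣ a j)).card : ℝ) =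
        ∑ j ∈ J, VV (PZ Y υ) c (fun p => if p ∣ a j then 1 else 0) := by
      unfold VV
      rw [sum_comm]
      apply sum_congr rfl
      intro T hT
      rw [mem_powerset] at hT
      rw [card_filter]
      push_cast
      rw [mul_sum]
      apply sum_congr rfl
      intro j _
      rw [Pool.Agent.Y882.PX.prod_ind T (fun p hp => (hPZ υ p (hT hp)).1)]
    rw [h6, h7, card_filter]
    push_cast
    apply sum_le_sum
    intro j _
    refine (hcN (a j)).trans ?_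
    split_ifs with h
    · exact WW_le_one Y ζ υ lam (lam / υ) (by positivity) (by rw [div_mul_cancel₀ _ hυ0.ne']) (a j)
    · exact not_lt.1 h
  have hm1 := mul_le_mul_of_nonneg_left hmain' hJr
  have e1 : f * c0 * J.card / Real.log Y = (J.card : ℝ) * (f * (c0 / Real.log Y)) := by ring
  rw [e1]
  linarith

end Pool.Agent.K3h70.QW
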